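import Pool.Agent.Lib.MP_6bf31b_an.Main

/-!
# Disproof for hexagons: `E^6_cos` is not minimised in any knotted hexagonal class

`K0` is an explicit embedded hexagon that no homeomorphism of `ℝ³` carries to a round circle
(a hexagonal trefoil). For every embedded hexagon `K` with that property, every embedded hexagon
`p` ambient isotopic to `K` can be moved by an arbitrarily small amount, within the class, to a
hexagon of strictly smaller energy.
-/

namespace Pool.Agent.Results.MP_6bf31b_an.NoMinimiser

open MP6bf31b

theorem result :
    (Embedded K0 ∧ ¬ Unknotted K0) ∧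
    ∀ K : Fin 6 → P3, Embedded K → ¬ Unknotted K →
      ∀ p : Fin 6 → P3, Embedded p → Isotopic (carrier K) (carrier p) →
        ∀ ε : ℝ, 0 < ε →
          ∃ q : Fin 6 → P3, (∀ i, dist (q i) (p i) < ε) ∧ Embedded q ∧
            Isotopic (carrier K) (carrier q) ∧ energy q < energy p :=
  ⟨⟨K0_embedded, fun ⟨h, hh⟩ => K0_knotted h hh⟩,
    fun K _ hK p hp hiso ε hε => no_minimiser K hK p hp hiso ε hε⟩

end Pool.Agent.Results.MP_6bf31b_an.NoMinimiser
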